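import Pool.Agent.Helper156.RWF.J13583
import Pool.Agent.Helper156.RWF.J14315
import Pool.Agent.Helper156.RWF.J13547
import Pool.Agent.Helper156.RWF.J14313
import Pool.Agent.Helper156.RWF.J14314
import Pool.Agent.Helper156.RWF.J14436

/-!
# Cohomological rigidity for random Weil groups

For every prime `p` and every free pro-`p` group `F` of finite rank, almost every continuous
automorphism `φ` of `F` has the property that for every continuous irreducible representation `ρ` of
the Weil group `F ⋊ ⟨φ⟩` over a finite extension of `ℚ_p` the space `H¹(F; ρ ⊗ ρ^∨)^φ` vanishes.

Sketch of the proof.  Call `φ` bad if there are an integral representation `η` of `F` of rank `r ≥ 1`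
whose image has a Lie algebra with vanishing first cohomology, a cocycle `C` which maps `ker η` onto the
lattice, and a linear map `B` with `B ^ M` of determinant one which intertwines `(η, C)` and
`(η, C) ∘ φ`.

* By rigidity of such Lie algebras and groups there are only countably many possibilities for the
  range of `(η, C)`, and data with the same range differ by an automorphism of `F`.  For each type
  the bad automorphisms lie in the conjugates of a closed subgroup of infinite index in the
  stabiliser of the data (the twist which scales `C`), so they form a null set.
* If `φ` is not bad and `ρ` is irreducible, then open subgroups of `F` have no invariant characters,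
  so the Lie algebra of `ρ(F)` is semisimple (Cartan's criterion), and Whitehead's lemma kills its
  first cohomology.  A power of `ρ(φ)` is the product of an element of `ρ(F)` and an element which
  generates a field in the commutant, so its determinant on the span of `c(ker ρ)` is a root of
  unity for an invariant class `c`; thus `c` vanishes on `ker ρ` and is a coboundary.
-/

open MeasureTheory

namespace Pool.Agent.Results.MP_dd16b7_nt.RandomWeilRigidity

open Pool.Agent.Helper156.RWF

/-- Sanity check: free pro-`p` groups of every finite rank exist. -/
theorem exists_free (p d : ℕ) [Fact p.Prime] :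
    ∃ (F : Type) (_ : Group F) (_ : TopologicalSpace F) (_ : IsTopologicalGroup F)
      (_ : CompactSpace F) (_ : T2Space F) (_ : TotallyDisconnectedSpace F) (x : Fin d → F),
      IsFreeProP p d F x :=
  J14314.exists_freeProP p d

variable {F : Type} [Group F] [TopologicalSpace F] [IsTopologicalGroup F] [CompactSpace F]
  [T2Space F] [TotallyDisconnectedSpace F]

/-- Sanity check: `Aut F` carries a normalised Haar measure. -/
theorem exists_normalised_haar {p d : ℕ} [Fact p.Prime] {x : Fin d → F}
    (h : IsFreeProP p d F x) :
    ∃ μ : Measure (F ≃ₜ* F), μ.IsHaarMeasure ∧ IsProbabilityMeasure μ :=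
  J14313.exists_haar (J13547.dense_basis h)

/-- Sanity check: the Weil group is a topological group. -/
theorem weil_topologicalGroup (φ : F ≃ₜ* F) : IsTopologicalGroup (WeilGroup φ) :=
  J14436.weil_isTopologicalGroup φ

/-- Sanity check: `F` is embedded as an open subgroup of the Weil group. -/
theorem weil_open (φ : F ≃ₜ* F) : Topology.IsOpenEmbedding (inF φ) :=
  J14436.weil_open_F φ

/-- Sanity check: the generator acts on `F` by `φ`. -/
theorem weil_conj (φ : F ≃ₜ* F) (x : F) : frob φ * inF φ x * (frob φ)⁻¹ = inF φ (φ x) :=
  J14436.weil_frob_conj φ x

/-- Let `F` be a free pro-`p` group of finite rank and `μ` the normalised Haar measure of `Aut F`.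
For `μ`-almost every `φ`, every continuous irreducible representation `ρ` of `F ⋊ ⟨φ⟩` over a finite
extension of `ℚ_p` satisfies `H¹(F; ρ ⊗ ρ^∨)^φ = 0`. -/
theorem result {p d : ℕ} [Fact p.Prime] {x : Fin d → F} (h : IsFreeProP p d F x)
    (μ : Measure (F ≃ₜ* F)) [μ.IsHaarMeasure] [IsProbabilityMeasure μ] :
    ∀ᵐ φ ∂μ, Rigid p φ := by
  filter_upwards [J13583.typ_ae h μ] with φ hφ
  exact J14315.rigid_of_not_bad (J13547.dense_basis h) φ hφ

end Pool.Agent.Results.MP_dd16b7_nt.RandomWeilRigidity
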